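import Mathlib

/-! The theorem of Kovari, Sos and Turan for bipartite relations, with a power saving. -/

set_option autoImplicit false

namespace Pool.Agent.N679.PD

open Finset

open Classical in
/-- Kovari-Sos-Turan: a relation without a complete `K × K` rectangle has few pairs -/
theorem kst_aux {α β : Type} (K : ℕ) (hK : 1 ≤ K) (X : Finset α) (Y : Finset β) (r : α → β → Prop)
    (hno : ¬ ∃ X' ⊆ X, ∃ Y' ⊆ Y, X'.card = K ∧ Y'.card = K ∧ ∀ x ∈ X', ∀ y ∈ Y', r x y) :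
    ((∑ y ∈ Y, (X.filter (fun x => r x y)).card : ℕ) : ℝ) ≤
      K * Y.card + (K : ℝ) * (Y.card : ℝ) ^ (1 - 1 / (K : ℝ)) * X.card := by
  -- the number of the stars
  have hstar : ∑ y ∈ Y, ((X.filter (fun x => r x y)).card.choose K) ≤ (K - 1) * X.card.choose K := by
    have h1 : ∀ y ∈ Y, ((X.filter (fun x => r x y)).card.choose K) =
        ((X.powersetCard K).filter (fun T => ∀ x ∈ T, r x y)).card := by
      intro y _
      rw [← card_powersetCard]
      congr 1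
      ext T
      rw [mem_powersetCard, mem_filter, mem_powersetCard]
      constructor
      · rintro ⟨h1, h2⟩
        exact ⟨⟨h1.trans (filter_subset _ _), h2⟩, fun x hx => (mem_filter.1 (h1 hx)).2⟩
      · rintro ⟨⟨h1, h2⟩, h3⟩
        exact ⟨fun x hx => mem_filter.2 ⟨h1 hx, h3 x hx⟩, h2⟩
    rw [Finset.sum_congr rfl h1]
    have h2 : ∑ y ∈ Y, ((X.powersetCard K).filter (fun T => ∀ x ∈ T, r x y)).card =
        ∑ T ∈ X.powersetCard K, (Y.filter (fun y => ∀ x ∈ T, r x y)).card := by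
      simp only [card_filter]
      exact Finset.sum_comm
    rw [h2]
    have h3 : ∀ T ∈ X.powersetCard K, (Y.filter (fun y => ∀ x ∈ T, r x y)).card ≤ K - 1 := by
      intro T hT
      by_contra hcon
      push Not at hcon
      obtain ⟨Y', hY', hc⟩ := exists_subset_card_eq (show K ≤ (Y.filter (fun y => ∀ x ∈ T, r x y)).card by omega)
      obtain ⟨hT1, hT2⟩ := mem_powersetCard.1 hT
      exact hno ⟨T, hT1, Y', hY'.trans (filter_subset _ _), hT2, hc,
        fun x hx y hy => (mem_filter.1 (hY' hy)).2 x hx⟩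
    refine (Finset.sum_le_sum h3).trans (le_of_eq ?_)
    rw [Finset.sum_const, card_powersetCard, smul_eq_mul, mul_comm]
  -- the powers
  have hpow : ∑ y ∈ Y, ((X.filter (fun x => r x y)).card + 1 - K) ^ K ≤ (K - 1) * X.card ^ K := by
    calc ∑ y ∈ Y, ((X.filter (fun x => r x y)).card + 1 - K) ^ K
        ≤ ∑ y ∈ Y, (X.filter (fun x => r x y)).card.descFactorial K :=
          Finset.sum_le_sum (fun y _ => Nat.pow_sub_le_descFactorial _ _)
      _ = ∑ y ∈ Y, K.factorial * (X.filter (fun x => r x y)).card.choose K := by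
          simp only [Nat.descFactorial_eq_factorial_mul_choose]
      _ = K.factorial * ∑ y ∈ Y, (X.filter (fun x => r x y)).card.choose K := by rw [mul_sum]
      _ ≤ K.factorial * ((K - 1) * X.card.choose K) := Nat.mul_le_mul_left _ hstar
      _ = (K - 1) * X.card.descFactorial K := by
          rw [Nat.descFactorial_eq_factorial_mul_choose]; ring
      _ ≤ (K - 1) * X.card ^ K := Nat.mul_le_mul_left _ (Nat.descFactorial_le_pow _ _)
  obtain ⟨k, rfl⟩ : ∃ k, K = k + 1 := ⟨K - 1, by omega⟩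
  set f : β → ℝ := fun y => (((X.filter (fun x => r x y)).card + 1 - (k + 1) : ℕ) : ℝ) with hf
  have hf0 : ∀ y ∈ Y, 0 ≤ f y := fun y _ => Nat.cast_nonneg _
  have h4 : (∑ y ∈ Y, f y) ^ (k + 1) ≤ (Y.card : ℝ) ^ k * ∑ y ∈ Y, f y ^ (k + 1) := by
    have h7 := pow_sum_div_card_le_sum_pow (s := Y) hf0 k
    rcases Nat.eq_zero_or_pos Y.card with h8 | h8
    · rw [Finset.card_eq_zero] at h8
      subst h8
      simp
    · rw [div_le_iff₀ (by positivity)] at h7
      linarith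
  have h5 : ∑ y ∈ Y, f y ^ (k + 1) ≤ (k : ℝ) * (X.card : ℝ) ^ (k + 1) := by
    have h6 : ((∑ y ∈ Y, ((X.filter (fun x => r x y)).card + 1 - (k + 1)) ^ (k + 1) : ℕ) : ℝ) ≤
        (((k + 1 - 1) * X.card ^ (k + 1) : ℕ) : ℝ) := by exact_mod_cast hpow
    push_cast at h6
    rw [hf]
    convert h6 using 2
    simp
  have h6 : ((∑ y ∈ Y, (X.filter (fun x => r x y)).card : ℕ) : ℝ) ≤ ((k + 1 : ℕ) : ℝ) * Y.card + ∑ y ∈ Y, f y := by
    have h7 : ∑ y ∈ Y, (X.filter (fun x => r x y)).card ≤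
        ∑ y ∈ Y, ((k + 1) + ((X.filter (fun x => r x y)).card + 1 - (k + 1))) :=
      Finset.sum_le_sum (fun y _ => by omega)
    rw [Finset.sum_add_distrib, Finset.sum_const, smul_eq_mul] at h7
    have h8 : ((∑ y ∈ Y, (X.filter (fun x => r x y)).card : ℕ) : ℝ) ≤
      ((Y.card * (k + 1) + ∑ y ∈ Y, ((X.filter (fun x => r x y)).card + 1 - (k + 1)) : ℕ) : ℝ) := by
      exact_mod_cast h7
    rw [hf]
    push_cast at h8 ⊢
    linarith
  refine h6.trans (add_le_add le_rfl ?_)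
  -- the root
  have hS0 : 0 ≤ ∑ y ∈ Y, f y := Finset.sum_nonneg hf0
  have hk0 : (0 : ℝ) < ((k + 1 : ℕ) : ℝ) := by positivity
  have h9 : (∑ y ∈ Y, f y) ^ (k + 1) ≤
      (((k + 1 : ℕ) : ℝ) * (Y.card : ℝ) ^ (1 - 1 / ((k + 1 : ℕ) : ℝ)) * X.card) ^ (k + 1) := by
    refine h4.trans ?_
    have e1 : ((Y.card : ℝ) ^ (1 - 1 / ((k + 1 : ℕ) : ℝ))) ^ (k + 1) = (Y.card : ℝ) ^ k := by
      rw [← Real.rpow_natCast, ← Real.rpow_mul (Nat.cast_nonneg _), ← Real.rpow_natCast]
      congr 1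
      field_simp
      push_cast
      ring
    rw [mul_pow, mul_pow, e1]
    have h10 : (k : ℝ) ≤ ((k + 1 : ℕ) : ℝ) ^ (k + 1) := by
      have h11 : (1 : ℝ) ≤ ((k + 1 : ℕ) : ℝ) := by push_cast; linarith [Nat.cast_nonneg (α := ℝ) k]
      calc (k : ℝ) ≤ ((k + 1 : ℕ) : ℝ) := by push_cast; linarith
        _ ≤ ((k + 1 : ℕ) : ℝ) ^ (k + 1) := le_self_pow₀ h11 (by omega)
    calc (Y.card : ℝ) ^ k * ∑ y ∈ Y, f y ^ (k + 1) ≤ (Y.card : ℝ) ^ k * ((k : ℝ) * (X.card : ℝ) ^ (k + 1)) := by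
          gcongr
      _ ≤ (Y.card : ℝ) ^ k * (((k + 1 : ℕ) : ℝ) ^ (k + 1) * (X.card : ℝ) ^ (k + 1)) := by
          gcongr
      _ = _ := by ring
  exact le_of_pow_le_pow_left₀ (by omega) (by positivity) h9

end Pool.Agent.N679.PD
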