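import Mathlib
import Pool.Agent.N679.PD.Kst

/-! Residues, and classes of constant terms with differences in a set which is not sparse. -/

set_option autoImplicit false

namespace Pool.Agent.N679.PD

open Finset

/-- the hypotheses of the question -/
def Adm (a d : ℤ) : Prop := Int.gcd a d = 1 ∧ 2 ∣ a * d

theorem gcd_one {a b : ℤ} (h : ∀ p : ℕ, p.Prime → (p : ℤ) ∣ a → (p : ℤ) ∣ b → False) :
    Int.gcd a b = 1 := by
  by_contra hne
  obtain ⟨p, hp, hd⟩ := Nat.exists_prime_and_dvd hne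
  have h1 : (p : ℤ) ∣ (Int.gcd a b : ℤ) := by exact_mod_cast hd
  exact h p hp (h1.trans (Int.gcd_dvd_left _ _)) (h1.trans (Int.gcd_dvd_right _ _))

theorem not_dvd_one {p : ℕ} (hp : p.Prime) (h : (p : ℤ) ∣ 1) : False := by
  have h1 := Int.le_of_dvd one_pos h
  have := hp.two_le
  omega

theorem gcd_ne {a b : ℤ} (h : Int.gcd a b = 1) {p : ℕ} (hp : p.Prime) (h1 : (p : ℤ) ∣ a)
    (h2 : (p : ℤ) ∣ b) : False := by
  have h3 := Int.dvd_coe_gcd h1 h2
  rw [h] at h3
  exact not_dvd_one hp (by exact_mod_cast h3)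

/-- a number in an interval with prescribed residues -/
theorem crt (Q : ℕ) (hQ : 0 < Q) (P : ℕ → ℤ → Prop) (hP : ∀ p : ℕ, p.Prime → p ∣ Q → ∃ t, P p t)
    (hper : ∀ p : ℕ, p.Prime → ∀ t t' : ℤ, (p : ℤ) ∣ t - t' → P p t → P p t') (A : ℤ) :
    ∃ t ∈ Ioc A (A + Q), ∀ p : ℕ, p.Prime → p ∣ Q → P p t := by
  classical
  have hex : ∀ p : ℕ, ∃ t : ℤ, p.Prime → p ∣ Q → P p t := by
    intro p
    by_cases h : p.Prime ∧ p ∣ Q
    · obtain ⟨t, ht⟩ := hP p h.1 h.2
      exact ⟨t, fun _ _ => ht⟩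
    · exact ⟨0, fun h1 h2 => absurd ⟨h1, h2⟩ h⟩
  choose τ hτ using hex
  have hco : Set.Pairwise (Q.primeFactors : Set ℕ) (Function.onFun Nat.Coprime (fun p : ℕ => p)) := by
    intro p hp q hq hne
    exact (Nat.coprime_primes (Nat.prime_of_mem_primeFactors hp) (Nat.prime_of_mem_primeFactors hq)).2 hne
  obtain ⟨k, hk⟩ := Nat.chineseRemainderOfFinset (fun p : ℕ => (τ p % p).toNat) (fun p : ℕ => p)
    Q.primeFactors (fun p hp => (Nat.prime_of_mem_primeFactors hp).ne_zero) hco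
  set t : ℤ := A + 1 + (k - (A + 1)) % Q with ht
  have hQ' : (0 : ℤ) < Q := by exact_mod_cast hQ
  have h0 := Int.emod_nonneg (k - (A + 1) : ℤ) hQ'.ne'
  have h1 := Int.emod_lt_of_pos (k - (A + 1) : ℤ) hQ'
  refine ⟨t, mem_Ioc.2 ⟨by omega, by omega⟩, fun p hp hpQ => ?_⟩
  have h2 := hk p (Nat.mem_primeFactors.2 ⟨hp, hpQ, hQ.ne'⟩)
  refine hper p hp (τ p) t ?_ (hτ p hp hpQ)
  have hp0 : (0 : ℤ) < p := by exact_mod_cast hp.pos
  have h3 : (p : ℤ) ∣ k - τ p := by
    have h4 : ((k : ℤ)) % p = ((τ p % p).toNat : ℤ) % p := by exact_mod_cast h2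
    rw [Int.toNat_of_nonneg (Int.emod_nonneg _ hp0.ne'), Int.emod_emod_of_dvd _ dvd_rfl] at h4
    exact Int.dvd_of_emod_eq_zero (Int.emod_eq_emod_iff_emod_sub_eq_zero.1 h4)
  have h4 : (p : ℤ) ∣ (k - (A + 1)) - (k - (A + 1)) % Q :=
    (by exact_mod_cast hpQ : (p : ℤ) ∣ Q).trans (Int.dvd_self_sub_emod)
  have h5 : τ p - t = -((k - τ p) - ((k - (A + 1)) - (k - (A + 1)) % Q)) := by rw [ht]; ring
  rw [h5]
  exact (dvd_sub h3 h4).neg_right

/-- `y` prime to `M` with `a + c y` prime to `M c` -/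
theorem exists_y (M c : ℕ) (hM : 0 < M) (a : ℤ) (ha : Adm a c) (A : ℤ) :
    ∃ y ∈ Ioc A (A + M), Int.gcd y M = 1 ∧ Int.gcd (a + c * y) (M * c : ℕ) = 1 := by
  obtain ⟨y, hy, h⟩ := crt M hM (fun p t => ¬ (p : ℤ) ∣ t ∧ ¬ (p : ℤ) ∣ a + c * t) (by
    intro p hp _
    have := Fact.mk hp
    by_cases hpc : (p : ℤ) ∣ c
    · refine ⟨1, ?_, ?_⟩
      · intro h
        have := Int.le_of_dvd one_pos h
        have := hp.two_le
        omega
      · intro h
        have h1 : (p : ℤ) ∣ a := by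
          have h2 : (p : ℤ) ∣ c * 1 := hpc.mul_right _
          exact (dvd_add_left h2).1 h
        exact gcd_ne ha.1 hp h1 hpc
    · rcases hp.two_le.lt_or_eq with h2 | h2
      · -- `p ≥ 3`
        have hc0 : ((c : ℤ) : ZMod p) ≠ 0 := fun h => hpc ((ZMod.intCast_zmod_eq_zero_iff_dvd _ _).1 h)
        have hcard : ({0, -(a : ZMod p) / ((c : ℤ) : ZMod p)} : Finset (ZMod p)).card < Fintype.card (ZMod p) := by
          rw [ZMod.card]
          exact lt_of_le_of_lt (Finset.card_le_two) h2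
        obtain ⟨z, hz⟩ : ∃ z : ZMod p, z ∉ ({0, -(a : ZMod p) / ((c : ℤ) : ZMod p)} : Finset (ZMod p)) := by
          by_contra hcon
          push Not at hcon
          have := Finset.card_le_card (fun z _ => hcon z : (univ : Finset (ZMod p)) ⊆ _)
          rw [Finset.card_univ] at this
          omega
        rw [mem_insert, mem_singleton, not_or] at hz
        refine ⟨(z.val : ℤ), ?_, ?_⟩
        · intro h
          rw [← ZMod.intCast_zmod_eq_zero_iff_dvd] at h
          push_cast at h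
          rw [ZMod.natCast_zmod_val] at h
          exact hz.1 h
        · intro h
          rw [← ZMod.intCast_zmod_eq_zero_iff_dvd] at h
          push_cast at h
          rw [ZMod.natCast_zmod_val] at h
          apply hz.2
          push_cast at hc0 ⊢
          rw [eq_div_iff hc0]
          linear_combination h
      · subst h2
        refine ⟨1, by norm_num, ?_⟩
        have h3 : ¬ (2 : ℤ) ∣ c := hpc
        have h4 : (2 : ℤ) ∣ a := by
          rcases Int.prime_two.dvd_or_dvd ha.2 with h5 | h5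
          · exact h5
          · exact absurd h5 h3
        push_cast
        omega)
    (by
      intro p _ t t' hd h
      refine ⟨fun h1 => h.1 ?_, fun h1 => h.2 ?_⟩
      · have : t = (t - t') + t' := by ring
        rw [this]
        exact dvd_add hd h1
      · have : a + c * t = c * (t - t') + (a + c * t') := by ring
        rw [this]
        exact dvd_add (hd.mul_left _) h1) A
  refine ⟨y, hy, ?_, ?_⟩
  · refine gcd_one fun p hp h1 h2 => ?_
    exact (h p hp (by exact_mod_cast h2)).1 h1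
  · refine gcd_one fun p hp h1 h2 => ?_
    have h3 : p ∣ M * c := by exact_mod_cast h2
    rcases (Nat.Prime.dvd_mul hp).1 h3 with h4 | h4
    · exact (h p hp h4).2 h1
    · have h5 : (p : ℤ) ∣ c := by exact_mod_cast h4
      have h6 : (p : ℤ) ∣ a := (dvd_add_left (h5.mul_right _)).1 h1
      exact gcd_ne ha.1 hp h6 h5

end Pool.Agent.N679.PD
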