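import Mathlib
import Pool.Agent.N679.PD.Loc

/-! Two classes of `K` constant terms with all differences in a set of integers which is not sparse. -/

set_option autoImplicit false

namespace Pool.Agent.N679.PD

open Finset

open Classical in
theorem kst_adm (K : ℕ) (hK : 1 ≤ K) (M c : ℕ) (hM : 0 < M) : ∃ C : ℝ, ∀ (A : ℤ) (H : ℕ), 1 ≤ H →
    ∀ S ⊆ Ioc A (A + H), (∀ a ∈ S, Adm a c) → C * (H : ℝ) ^ (1 - 1 / (K : ℝ)) < S.card →
    ∃ L L' : Fin K → ℤ, Function.Injective L ∧ Function.Injective L' ∧ (∀ i, Int.gcd (L i) M = 1) ∧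
      (∀ i, Int.gcd (L' i) (M * c : ℕ) = 1) ∧ ∀ i j, L' j - c * L i ∈ S := by
  refine ⟨K * (1 + c * M) + K * (1 + c * M) * M, fun A H hH S hS hSa hcard => ?_⟩
  by_contra hcon
  set X : Finset ℤ := Ioc 0 ((H * M : ℕ) : ℤ) with hX
  set Y : Finset ℤ := Ioc A (A + ((H * (1 + c * M) : ℕ) : ℤ)) with hY
  have hXc : X.card = H * M := by
    rw [hX, Int.card_Ioc, sub_zero, Int.toNat_natCast]
  have hYc : Y.card = H * (1 + c * M) := by
    rw [hY, Int.card_Ioc, add_sub_cancel_left, Int.toNat_natCast]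
  obtain ⟨r, hr⟩ : ∃ r : ℤ → ℤ → Prop, r = fun l l' =>
    (Int.gcd l M = 1 ∧ Int.gcd l' (M * c : ℕ) = 1 ∧ l' - c * l ∈ S) := ⟨_, rfl⟩
  have h1 := kst_aux K hK X Y r (by
    rintro ⟨X', _, Y', _, hX'c, hY'c, h⟩
    rw [hr] at h
    apply hcon
    refine ⟨fun i => X'.orderEmbOfFin hX'c i, fun i => Y'.orderEmbOfFin hY'c i,
      fun i j h => (X'.orderEmbOfFin hX'c).injective h, fun i j h => (Y'.orderEmbOfFin hY'c).injective h, ?_, ?_, ?_⟩
    · intro i
      exact (h _ (X'.orderEmbOfFin_mem hX'c i) _ (Y'.orderEmbOfFin_mem hY'c i)).1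
    · intro i
      exact (h _ (X'.orderEmbOfFin_mem hX'c i) _ (Y'.orderEmbOfFin_mem hY'c i)).2.1
    · intro i j
      exact (h _ (X'.orderEmbOfFin_mem hX'c i) _ (Y'.orderEmbOfFin_mem hY'c j)).2.2)
  -- the lower bound for the number of pairs
  have hex : ∀ p : ℤ × ℕ, ∃ y : ℤ, p.1 ∈ S → y ∈ Ioc ((p.2 * M : ℕ) : ℤ) ((p.2 * M : ℕ) + M) ∧
      Int.gcd y M = 1 ∧ Int.gcd (p.1 + c * y) (M * c : ℕ) = 1 := by
    intro p
    by_cases hp : p.1 ∈ S
    · obtain ⟨y, hy, h2, h3⟩ := exists_y M c hM p.1 (hSa _ hp) ((p.2 * M : ℕ) : ℤ)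
      exact ⟨y, fun _ => ⟨hy, h2, h3⟩⟩
    · exact ⟨0, fun h => absurd h hp⟩
  choose y hy using hex
  have h2 : S.card * H ≤ ∑ z ∈ Y, (X.filter (fun x => r x z)).card := by
    have e1 : ∑ z ∈ Y, (X.filter (fun x => r x z)).card =
        ((Y ×ˢ X).filter (fun p => r p.2 p.1)).card := by
      rw [card_filter, sum_product]
      simp only [card_filter]
    rw [e1]
    have e2 : S.card * H = (S ×ˢ range H).card := by rw [card_product, card_range]
    rw [e2]
    apply Finset.card_le_card_of_injOn (fun p : ℤ × ℕ => (p.1 + c * y p, y p))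
    · intro p hp
      rw [mem_coe, mem_product, mem_range] at hp
      obtain ⟨h3, h4, h5⟩ := hy p hp.1
      rw [mem_Ioc] at h3
      have h6 := mem_Ioc.1 (hS hp.1)
      have h7 : (p.2 * M + M : ℕ) ≤ H * M := by
        have : (p.2 + 1) * M ≤ H * M := Nat.mul_le_mul_right _ hp.2
        linarith
      have h8 : ((p.2 * M + M : ℕ) : ℤ) ≤ (H * M : ℕ) := by exact_mod_cast h7
      have h9 : (0 : ℤ) ≤ (p.2 * M : ℕ) := Nat.cast_nonneg _
      have h10 : y p ≤ (H * M : ℕ) := by push_cast at h8 h3 ⊢; linarith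
      have h11 : 0 < y p := by linarith [h3.1]
      have h12 : (0 : ℤ) ≤ c := Nat.cast_nonneg _
      rw [mem_coe, mem_filter, mem_product]
      rw [hr]
      refine ⟨⟨?_, ?_⟩, h4, h5, ?_⟩
      · rw [hY, mem_Ioc]
        have h13 : (c : ℤ) * y p ≤ c * (H * M : ℕ) := mul_le_mul_of_nonneg_left h10 h12
        have h14 : 0 ≤ (c : ℤ) * y p := mul_nonneg h12 h11.le
        push_cast at h13 ⊢
        constructor
        · linarith [h6.1]
        · linarith [h6.2]
      · rw [hX, mem_Ioc]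
        exact ⟨h11, h10⟩
      · show p.1 + c * y p - c * y p ∈ S
        rw [add_sub_cancel_right]
        exact hp.1
    · intro p hp p' hp' he
      rw [mem_coe, mem_product, mem_range] at hp hp'
      simp only [Prod.mk.injEq] at he
      obtain ⟨h3, _, _⟩ := hy p hp.1
      obtain ⟨h4, _, _⟩ := hy p' hp'.1
      rw [mem_Ioc] at h3 h4
      have h5 : p.1 = p'.1 := by
        have := he.1
        rw [he.2] at this
        linarith
      have h6 : p.2 = p'.2 := by
        rw [he.2] at h3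
        have h7 : ((p.2 * M : ℕ) : ℤ) < (p'.2 * M : ℕ) + M := by linarith [h3.1, h4.2]
        have h8 : ((p'.2 * M : ℕ) : ℤ) < (p.2 * M : ℕ) + M := by linarith [h3.2, h4.1]
        have h9 : p.2 * M < (p'.2 + 1) * M := by
          have : p.2 * M < p'.2 * M + M := by exact_mod_cast h7
          linarith
        have h10 : p'.2 * M < (p.2 + 1) * M := by
          have : p'.2 * M < p.2 * M + M := by exact_mod_cast h8
          linarith
        have h11 := lt_of_mul_lt_mul_right h9 (Nat.zero_le _)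
        have h12 := lt_of_mul_lt_mul_right h10 (Nat.zero_le _)
        omega
      exact Prod.ext h5 h6
  have h3 : (S.card : ℝ) * H ≤ K * (H * (1 + c * M) : ℕ) + (K : ℝ) * ((H * (1 + c * M) : ℕ) : ℝ) ^ (1 - 1 / (K : ℝ)) *
      (H * M : ℕ) := by
    have : ((S.card * H : ℕ) : ℝ) ≤ ((∑ z ∈ Y, (X.filter (fun x => r x z)).card : ℕ) : ℝ) := by
      exact_mod_cast h2
    rw [hXc, hYc] at h1
    push_cast at this h1 ⊢
    linarith
  have hH1 : (1 : ℝ) ≤ H := by exact_mod_cast hH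
  have hK1 : (1 : ℝ) ≤ K := by exact_mod_cast hK
  have he0 : (0 : ℝ) ≤ 1 - 1 / (K : ℝ) := by
    rw [sub_nonneg, div_le_one (by linarith)]
    exact hK1
  have he1 : 1 - 1 / (K : ℝ) ≤ 1 := by
    have : (0 : ℝ) < 1 / (K : ℝ) := by positivity
    linarith
  set E : ℝ := (H : ℝ) ^ (1 - 1 / (K : ℝ)) with hE
  have hE1 : 1 ≤ E := Real.one_le_rpow hH1 he0
  have hcM : (1 : ℝ) ≤ 1 + c * M := by
    have : (0 : ℝ) ≤ (c : ℝ) * M := by positivity
    linarith
  have h4 : (((H * (1 + c * M) : ℕ) : ℝ)) ^ (1 - 1 / (K : ℝ)) ≤ E * (1 + c * M) := by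
    push_cast
    rw [Real.mul_rpow (by linarith) (by linarith), hE]
    apply mul_le_mul_of_nonneg_left _ (by positivity)
    calc (1 + (c : ℝ) * M) ^ (1 - 1 / (K : ℝ)) ≤ (1 + (c : ℝ) * M) ^ (1 : ℝ) :=
          Real.rpow_le_rpow_of_exponent_le hcM he1
      _ = _ := Real.rpow_one _
  have h5 : (S.card : ℝ) * H ≤ ((K * (1 + c * M) + K * (1 + c * M) * M) * E) * H := by
    refine h3.trans ?_
    push_cast
    have h6 : (K : ℝ) * (((H * (1 + c * M) : ℕ) : ℝ)) ^ (1 - 1 / (K : ℝ)) * (H * M) ≤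
        K * (E * (1 + c * M)) * (H * M) := by
      apply mul_le_mul_of_nonneg_right _ (by positivity)
      exact mul_le_mul_of_nonneg_left h4 (by positivity)
    push_cast at h6
    have h7 : (K : ℝ) * (H * (1 + c * M)) ≤ K * (1 + c * M) * E * H := by
      have : (K : ℝ) * (1 + c * M) * H * 1 ≤ (K : ℝ) * (1 + c * M) * H * E :=
        mul_le_mul_of_nonneg_left hE1 (by positivity)
      linarith
    linarith
  have h6 := le_of_mul_le_mul_right h5 (by linarith)
  linarith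

end Pool.Agent.N679.PD
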