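import Mathlib
import Pool.Agent.R493.OT.Pairs
import Pool.Agent.N679.PD.Loc

/-! Classes of linear forms of which two forms of different classes are prime together, at every scale. -/

set_option autoImplicit false

namespace Pool.Agent.N679.PD

open Finset Filter
open Pool.Agent.Y827.GS (cntN cntN_anti Adf adf_ev)

/-- the number of the primes `q ≤ x` with `a + q d` prime -/
noncomputable def cnt (a d : ℤ) (x : ℕ) : ℕ :=
  {q : ℕ | q ≤ x ∧ q.Prime ∧ ∃ p : ℕ, p.Prime ∧ a + q * d = p}.ncard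

theorem cnt_mono (a d : ℤ) {x y : ℕ} (h : x ≤ y) : cnt a d x ≤ cnt a d y := by
  unfold cnt
  apply Set.ncard_le_ncard
  · rintro q ⟨h1, h2⟩
    exact ⟨h1.trans h, h2⟩
  · exact (Set.finite_Iic y).subset (fun q hq => hq.1)

open Classical in
/-- simultaneous prime values of two forms -/
theorem cnt_ge {s b s' b' Q : ℤ} (hs : 0 < s) (hs' : s' = s * Q)
    {F : Finset (ℤ × ℤ)} (h1 : (s, b) ∈ F) (h2 : (s', b') ∈ F) {N x : ℕ}
    (hx : s * N + b ≤ x) : cntN F N ≤ cnt (b' - Q * b) Q x := by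
  unfold cnt
  have hfin : {q : ℕ | q ≤ x ∧ q.Prime ∧ ∃ p : ℕ, p.Prime ∧ b' - Q * b + q * Q = p}.Finite :=
    (Set.finite_Iic x).subset (fun q hq => hq.1)
  have e1 : cntN F N = (((Icc 1 N).filter (fun n : ℕ => ∀ f ∈ F,
    (f.1 * (n : ℤ) + f.2).toNat.Prime)).image (fun n : ℕ => (s * n + b).toNat)).card := by
    rw [card_image_of_injOn]
    · rfl
    · intro n hn n' hn' he
      rw [mem_coe, mem_filter] at hn hn'
      have hp := hn.2 _ h1
      have hp' := hn'.2 _ h1
      simp only at hp hp' he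
      have hpos : 0 < (s * n + b).toNat := hp.pos
      have hpos' : 0 < (s * n' + b).toNat := hp'.pos
      have h5 : s * n + b = s * n' + b := by omega
      have h6 : s * ((n : ℤ) - n') = 0 := by linarith
      rcases mul_eq_zero.1 h6 with h7 | h7
      · exact absurd h7 hs.ne'
      · omega
  rw [e1, ← Set.ncard_coe_finset]
  apply Set.ncard_le_ncard _ hfin
  intro q hq
  rw [mem_coe, mem_image] at hq
  obtain ⟨n, hn, rfl⟩ := hq
  obtain ⟨hn1, hn2⟩ := mem_filter.1 hn
  have hp := hn2 _ h1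
  have hp' := hn2 _ h2
  simp only at hp hp'
  have hpos : 0 < (s * n + b).toNat := hp.pos
  have hpos' : 0 < (s' * n + b').toNat := hp'.pos
  have e2 : ((s * n + b).toNat : ℤ) = s * n + b := Int.toNat_of_nonneg (by omega)
  have e3 : ((s' * n + b').toNat : ℤ) = s' * n + b' := Int.toNat_of_nonneg (by omega)
  refine ⟨?_, hp, (s' * n + b').toNat, hp', ?_⟩
  · rw [mem_Icc] at hn1
    have h8 : s * (n : ℤ) ≤ s * N := mul_le_mul_of_nonneg_left (by exact_mod_cast hn1.2) hs.le
    zify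
    rw [e2]
    linarith
  · rw [e2, e3, hs']
    ring

/-- comparison of the bounds for the counting functions -/
theorem scale {C s w : ℕ} (hs : 1 ≤ s) : ∀ᶠ x : ℕ in atTop,
    (x : ℝ) / (Real.log x) ^ (C + 1) ≤ (((x - w) / s : ℕ) : ℝ) / (Real.log (((x - w) / s : ℕ) : ℝ)) ^ C ∧
      s * ((x - w) / s) + w ≤ x := by
  have hl : ∀ᶠ x : ℕ in atTop, (2 * (2 * s) : ℝ) ≤ Real.log x :=
    (Real.tendsto_log_atTop.comp tendsto_natCast_atTop_atTop).eventually_ge_atTop _
  filter_upwards [hl, eventually_ge_atTop (4 * w + 4 * s * 3)] with x hx hx2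
  set N : ℕ := (x - w) / s with hN
  have hdiv : s * N ≤ x - w := Nat.mul_div_le _ _
  have hlt : x - w < s * (N + 1) := by
    have := Nat.lt_mul_div_succ (x - w) (by omega : 0 < s)
    simpa [hN] using this
  have hN3 : 3 ≤ N := by
    rw [hN, Nat.le_div_iff_mul_le (by omega)]
    have : 3 * s ≤ 4 * s * 3 := by nlinarith
    omega
  have hNx : N ≤ x := by
    have : 1 * N ≤ s * N := Nat.mul_le_mul_right _ hs
    omega
  have hx2N : x ≤ 2 * (2 * s) * N := by
    have h1 : s * (N + 1) ≤ 2 * s * N := by nlinarith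
    have h2 : 2 * w ≤ x := by omega
    have h3 : x ≤ 2 * (x - w) := by omega
    calc x ≤ 2 * (x - w) := h3
      _ ≤ 2 * (2 * s * N) := Nat.mul_le_mul_left _ (hlt.le.trans h1)
      _ = _ := by ring
  refine ⟨?_, by omega⟩
  have hlogN : (1 : ℝ) ≤ Real.log N := by
    rw [← Real.log_exp 1]
    apply Real.log_le_log (Real.exp_pos 1)
    have := Real.exp_one_lt_d9
    have : (3 : ℝ) ≤ N := by exact_mod_cast hN3
    linarith
  have hlogx : Real.log N ≤ Real.log x := by
    apply Real.log_le_log (by exact_mod_cast (by omega : 0 < N))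
    exact_mod_cast hNx
  have hN0 : (0 : ℝ) < N := by exact_mod_cast (by omega : 0 < N)
  have hlN0 : (0 : ℝ) < Real.log N := by linarith
  have hlx0 : (0 : ℝ) < Real.log x := by linarith
  rw [div_le_div_iff₀ (by positivity) (by positivity)]
  have h12 : (x : ℝ) ≤ (2 * (2 * s)) * N := by exact_mod_cast hx2N
  have h13 : (Real.log N) ^ C ≤ (Real.log x) ^ C := pow_le_pow_left₀ (by linarith) hlogx _
  calc (x : ℝ) * (Real.log N) ^ C ≤ ((2 * (2 * s)) * N) * (Real.log x) ^ C := by gcongr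
    _ ≤ (Real.log x * N) * (Real.log x) ^ C := by gcongr
    _ = N * (Real.log x) ^ (C + 1) := by ring

theorem tendsto_scale {s w : ℕ} (hs : 1 ≤ s) : Tendsto (fun x : ℕ => (x - w) / s) atTop atTop := by
  rw [tendsto_atTop]
  intro b
  filter_upwards [eventually_ge_atTop (s * b + w)] with x hx
  rw [Nat.le_div_iff_mul_le (by omega)]
  have : b * s = s * b := mul_comm _ _
  omega

open Classical in
/-- four classes of `K` forms: for every large `N` two forms of different classes are equal or often prime together -/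
theorem four : ∃ K : ℕ, 1 ≤ K ∧ ∀ H : Fin 4 → Fin K → ℤ × ℤ, (∀ g, Function.Injective (H g)) →
    (∀ g i, 0 < (H g i).1 ∧ IsCoprime (H g i).1 (H g i).2) →
    (∀ p : ℕ, p.Prime → p ≤ 4 * K → ∃ r : ℤ, ∀ g i, ¬ (p : ℤ) ∣ (H g i).1 * r + (H g i).2) →
    ∀ᶠ N : ℕ in atTop, ∃ g g', g < g' ∧ ∃ k k', H g k = H g' k' ∨
      (N : ℝ) / (Real.log N) ^ (4 * K + 2) ≤ (cntN {H g k, H g' k'} N : ℝ) := by
  obtain ⟨K, hK, h⟩ := Pool.Agent.Y827.RO.lamRD 4
  refine ⟨K, hK, fun H hgi hpos hloc => ?_⟩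
  by_cases hinj : Function.Injective (fun x : Fin 4 × Fin K => H x.1 x.2)
  · obtain ⟨A, hA⟩ := adf_ev (univ.image (fun x : Fin 4 × Fin K => H x.1 x.2)) (by
      intro f hf
      obtain ⟨x, _, rfl⟩ := mem_image.1 hf
      exact hpos _ _)
    have h1 := h (by norm_num) A
    filter_upwards [h1, hA] with N hN hA
    obtain ⟨S, c, h3, h4⟩ := hN H hinj (fun g i => hA _ (mem_image.2 ⟨(g, i), mem_univ _, rfl⟩)) hloc
    have h5 : 1 < S.card := by
      by_contra hle
      push Not at hle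
      have : (S.card : ℝ) ≤ 1 := by exact_mod_cast hle
      norm_num at h3
      linarith
    obtain ⟨g, hg, g', hg', hne⟩ := Finset.one_lt_card.1 h5
    have key : ∀ u ∈ S, ∀ v ∈ S, (N : ℝ) / (Real.log N) ^ (4 * K + 2) ≤
        (cntN {H u (c u), H v (c v)} N : ℝ) := by
      intro u hu v hv
      refine h4.trans ?_
      have := cntN_anti (F := S.image (fun g => H g (c g))) (F' := {H u (c u), H v (c v)}) (by
        intro f hf
        rw [mem_insert, mem_singleton] at hf
        rcases hf with rfl | rfl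
        · exact mem_image.2 ⟨u, hu, rfl⟩
        · exact mem_image.2 ⟨v, hv, rfl⟩) N
      exact_mod_cast this
    rcases lt_or_gt_of_ne hne with h6 | h6
    · exact ⟨g, g', h6, c g, c g', Or.inr (key g hg g' hg')⟩
    · exact ⟨g', g, h6, c g', c g, Or.inr (key g' hg' g hg)⟩
  · rw [Function.Injective] at hinj
    push Not at hinj
    obtain ⟨x, y, hxy, hne⟩ := hinj
    apply Eventually.of_forall
    intro N
    rcases lt_trichotomy x.1 y.1 with h1 | h1 | h1
    · exact ⟨x.1, y.1, h1, x.2, y.2, Or.inl hxy⟩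
    · exfalso
      apply hne
      rw [h1] at hxy
      exact Prod.ext h1 (hgi _ hxy)
    · exact ⟨y.1, x.1, h1, y.2, x.2, Or.inl hxy.symm⟩

/-- pigeonhole for infinitely many scales -/
theorem freq_exists {ι : Type} [Finite ι] {P : ι → ℕ → Prop} (h : ∃ᶠ x : ℕ in atTop, ∃ i, P i x) :
    ∃ i, ∃ᶠ x : ℕ in atTop, P i x := by
  by_contra hcon
  push Not at hcon
  apply h
  have h1 : ∀ᶠ x : ℕ in atTop, ∀ i, ¬ P i x := by
    rw [Filter.eventually_all]
    intro i
    exact hcon i
  filter_upwards [h1] with x hx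
  rintro ⟨i, hi⟩
  exact hx i hi

/-- the trivial pair -/
theorem triv {K : ℕ} (hK : 1 ≤ K) (four : ∀ H : Fin 4 → Fin K → ℤ × ℤ, (∀ g, Function.Injective (H g)) →
    (∀ g i, 0 < (H g i).1 ∧ IsCoprime (H g i).1 (H g i).2) →
    (∀ p : ℕ, p.Prime → p ≤ 4 * K → ∃ r : ℤ, ∀ g i, ¬ (p : ℤ) ∣ (H g i).1 * r + (H g i).2) →
    ∀ᶠ N : ℕ in atTop, ∃ g g', g < g' ∧ ∃ k k', H g k = H g' k' ∨
      (N : ℝ) / (Real.log N) ^ (4 * K + 2) ≤ (cntN {H g k, H g' k'} N : ℝ)) :
    ∀ᶠ x : ℕ in atTop, (x : ℝ) / (Real.log x) ^ (4 * K + 3) ≤ (cnt 0 1 x : ℝ) := by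
  classical
  set b : Fin 4 → Fin K → ℤ := fun g i => ((4 * K).factorial : ℤ) * ((finProdFinEquiv (g, i) : Fin (4 * K)) : ℕ) + 1
    with hb
  have hbinj : ∀ g i g' i', b g i = b g' i' → g = g' ∧ i = i' := by
    intro g i g' i' he
    have h1 : ((4 * K).factorial : ℤ) ≠ 0 := by exact_mod_cast (Nat.factorial_pos _).ne'
    have h2 := mul_left_cancel₀ h1 (by linarith : ((4 * K).factorial : ℤ) *
      ((finProdFinEquiv (g, i) : Fin (4 * K)) : ℕ) = ((4 * K).factorial : ℤ) *
      ((finProdFinEquiv (g', i') : Fin (4 * K)) : ℕ))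
    have h3 : (finProdFinEquiv (g, i) : Fin (4 * K)) = finProdFinEquiv (g', i') := by
      apply Fin.ext
      exact_mod_cast h2
    have h4 := finProdFinEquiv.injective h3
    exact ⟨congrArg Prod.fst h4, congrArg Prod.snd h4⟩
  have h1 := four (fun g i => (1, b g i)) (fun g i i' h => (hbinj g i g i' (congrArg Prod.snd h)).2)
    (fun g i => ⟨by norm_num, isCoprime_one_left⟩)
    (fun p hp hle => ⟨0, fun g i hd => by
      simp only [mul_zero, zero_add] at hd
      have h1 : (p : ℤ) ∣ ((4 * K).factorial : ℤ) := by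
        exact_mod_cast (Nat.Prime.dvd_factorial hp).2 hle
      exact not_dvd_one hp ((Int.dvd_add_right (h1.mul_right _)).1 hd)⟩)
  set w : ℕ := ∑ g, ∑ i, (b g i).natAbs with hw
  have hbw : ∀ g i, b g i ≤ w := by
    intro g i
    have h2 : (b g i).natAbs ≤ w := by
      refine (Finset.single_le_sum (f := fun i => (b g i).natAbs) (fun _ _ => Nat.zero_le _) (mem_univ i)).trans ?_
      exact Finset.single_le_sum (f := fun g => ∑ i, (b g i).natAbs) (fun _ _ => Nat.zero_le _) (mem_univ g)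
    omega
  filter_upwards [(tendsto_scale (s := 1) (w := w) le_rfl).eventually h1,
    scale (C := 4 * K + 2) (s := 1) (w := w) le_rfl] with x hx1 hx2
  obtain ⟨g, g', hlt, k, k', h3⟩ := hx1
  rcases h3 with h3 | h3
  · exact absurd (hbinj _ _ _ _ (congrArg Prod.snd h3)).1 hlt.ne
  · refine hx2.1.trans (h3.trans ?_)
    have h4 := cnt_ge (s := 1) (b := b g k) (s' := 1) (b' := b g k) (Q := 1) one_pos (by norm_num)
      (F := {(1, b g k), (1, b g' k')}) (by simp) (by simp) (N := (x - w) / 1) (x := x) (by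
        have h5 := hbw g k
        have h6 : ((1 * ((x - w) / 1) + w : ℕ) : ℤ) ≤ x := by exact_mod_cast hx2.2
        push_cast at h6 ⊢
        linarith)
    rw [one_mul, sub_self] at h4
    exact_mod_cast h4

end Pool.Agent.N679.PD
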