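import Mathlib
import Pool.Agent.N679.PD.Cls

/-! Two pairs of classes with bad differences give a good pair near every point. -/

set_option autoImplicit false

namespace Pool.Agent.N679.PD

open Finset Filter
open Pool.Agent.Y827.GS (cntN)

/-- infinitely often at least `x / (log x) ^ B` primes `q ≤ x` with `a + q d` prime -/
def Oft (B : ℕ) (a d : ℤ) : Prop :=
  Adm a d ∧ ∃ᶠ x : ℕ in atTop, (x : ℝ) / (Real.log x) ^ B ≤ (cnt a d x : ℝ)

theorem adm_of {M : ℕ} (h2 : 2 ∣ M) {b b' Q : ℤ} {s : ℕ} (hQ : Q ∣ s) (hb : Int.gcd b M = 1)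
    (hb' : Int.gcd b' (s * M : ℕ) = 1) : Adm (b' - Q * b) Q := by
  have h2' : (2 : ℤ) ∣ M := by exact_mod_cast h2
  constructor
  · refine gcd_one fun p hp h1 h3 => ?_
    have h4 : (p : ℤ) ∣ b' := (dvd_sub_left (h3.mul_right b)).1 h1
    refine gcd_ne hb' hp h4 ?_
    push_cast
    exact (h3.trans hQ).mul_right _
  · rcases Int.even_or_odd Q with h3 | h3
    · exact h3.two_dvd.mul_left _
    · have h4 : ¬ (2 : ℤ) ∣ b := fun h => gcd_ne hb Nat.prime_two (by exact_mod_cast h) (by exact_mod_cast h2')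
      have h5 : ¬ (2 : ℤ) ∣ b' := fun h => gcd_ne hb' Nat.prime_two (by exact_mod_cast h) (by
        push_cast
        exact h2'.mul_left _)
      have h6 : Odd b := by rw [← Int.not_even_iff_odd, even_iff_two_dvd]; exact h4
      have h7 : Odd b' := by rw [← Int.not_even_iff_odd, even_iff_two_dvd]; exact h5
      exact ((h7.sub_odd (h3.mul h6)).two_dvd).mul_right _

/-- the shift -/
theorem exists_t {K : ℕ} (M : ℕ) (hM : 0 < M) (hMp : ∀ p : ℕ, p.Prime → p ≤ 4 * K → p ∣ M) (c c' e : ℕ)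
    (hc : 1 ≤ c) (hc' : 1 ≤ c') (he : 1 ≤ e) (R R' : Fin K → ℤ) (hR : ∀ i, Int.gcd (R i) M = 1)
    (hR' : ∀ i, Int.gcd (R' i) (M * c' : ℕ) = 1) (A : ℤ) :
    ∃ t ∈ Ioc A (A + ((M * (c * e * c') : ℕ) : ℤ)), (∀ i, Int.gcd (R i + t) ((c * e * c') * M : ℕ) = 1) ∧
      ∀ i, Int.gcd (R' i + c' * t) ((c * e * c') * M : ℕ) = 1 := by
  obtain ⟨t, ht, h⟩ := crt (M * (c * e * c')) (by positivity)
    (fun p t => ∀ i, ¬ (p : ℤ) ∣ R i + t ∧ ¬ (p : ℤ) ∣ R' i + c' * t) (by
      intro p hp _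
      have := Fact.mk hp
      by_cases hpM : p ∣ M
      · refine ⟨0, fun i => ⟨fun h => ?_, fun h => ?_⟩⟩
        · rw [add_zero] at h
          exact gcd_ne (hR i) hp h (by exact_mod_cast hpM)
        · rw [mul_zero, add_zero] at h
          exact gcd_ne (hR' i) hp h (by exact_mod_cast hpM.mul_right _)
      · have hK : 4 * K < p := by
          by_contra hle
          exact hpM (hMp p hp (by omega))
        set S : Finset (ZMod p) := univ.image (fun i : Fin K => -((R i : ℤ) : ZMod p)) ∪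
          univ.image (fun i : Fin K => -((R' i : ℤ) : ZMod p) / (((c' : ℕ) : ℤ) : ZMod p)) with hS
        have hcard : S.card < Fintype.card (ZMod p) := by
          rw [ZMod.card]
          have h1 : S.card ≤ K + K := by
            refine (card_union_le _ _).trans (add_le_add ?_ ?_)
            · exact card_image_le.trans (by simp)
            · exact card_image_le.trans (by simp)
          have := hp.pos
          omega
        obtain ⟨z, hz⟩ : ∃ z : ZMod p, z ∉ S := by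
          by_contra hcon
          push Not at hcon
          have := Finset.card_le_card (fun z _ => hcon z : (univ : Finset (ZMod p)) ⊆ _)
          rw [Finset.card_univ] at this
          omega
        rw [hS, mem_union, not_or] at hz
        refine ⟨(z.val : ℤ), fun i => ⟨fun h => hz.1 ?_, fun h => ?_⟩⟩
        · rw [← ZMod.intCast_zmod_eq_zero_iff_dvd] at h
          push_cast at h
          rw [ZMod.natCast_zmod_val] at h
          rw [mem_image]
          exact ⟨i, mem_univ _, by linear_combination -h⟩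
        · by_cases hcp : (((c' : ℕ) : ℤ) : ZMod p) = 0
          · have h1 : (p : ℤ) ∣ c' := (ZMod.intCast_zmod_eq_zero_iff_dvd _ _).1 hcp
            have h2 : (p : ℤ) ∣ R' i := (dvd_add_left (h1.mul_right _)).1 h
            exact gcd_ne (hR' i) hp h2 (by push_cast; exact h1.mul_left _)
          · apply hz.2
            rw [← ZMod.intCast_zmod_eq_zero_iff_dvd] at h
            push_cast at h
            rw [ZMod.natCast_zmod_val] at h
            rw [mem_image]
            refine ⟨i, mem_univ _, ?_⟩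
            push_cast at hcp ⊢
            rw [div_eq_iff hcp]
            linear_combination -h)
    (by
      intro p _ t t' hd h i
      refine ⟨fun h1 => (h i).1 ?_, fun h1 => (h i).2 ?_⟩
      · have : R i + t = (t - t') + (R i + t') := by ring
        rw [this]
        exact dvd_add hd h1
      · have : R' i + c' * t = c' * (t - t') + (R' i + c' * t') := by ring
        rw [this]
        exact dvd_add (hd.mul_left _) h1) A
  refine ⟨t, ht, fun i => gcd_one fun p hp h1 h2 => ?_, fun i => gcd_one fun p hp h1 h2 => ?_⟩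
  · have h3 : p ∣ M * (c * e * c') := by
      rw [mul_comm]
      exact_mod_cast h2
    exact (h p hp h3 i).1 h1
  · have h3 : p ∣ M * (c * e * c') := by
      rw [mul_comm]
      exact_mod_cast h2
    exact (h p hp h3 i).2 h1

open Classical in
theorem key {K : ℕ} (hK : 1 ≤ K) (four : ∀ H : Fin 4 → Fin K → ℤ × ℤ, (∀ g, Function.Injective (H g)) →
    (∀ g i, 0 < (H g i).1 ∧ IsCoprime (H g i).1 (H g i).2) →
    (∀ p : ℕ, p.Prime → p ≤ 4 * K → ∃ r : ℤ, ∀ g i, ¬ (p : ℤ) ∣ (H g i).1 * r + (H g i).2) →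
    ∀ᶠ N : ℕ in atTop, ∃ g g', g < g' ∧ ∃ k k', H g k = H g' k' ∨
      (N : ℝ) / (Real.log N) ^ (4 * K + 2) ≤ (cntN {H g k, H g' k'} N : ℝ))
    (M : ℕ) (hM : 0 < M) (hMp : ∀ p : ℕ, p.Prime → p ≤ 4 * K → p ∣ M)
    (c c' : ℕ) (hc : 1 ≤ c) (hc' : 1 ≤ c') (L L' R R' : Fin K → ℤ) (hL : Function.Injective L)
    (hL' : Function.Injective L') (hRi : Function.Injective R) (hRi' : Function.Injective R')
    (hLM : ∀ i, Int.gcd (L i) M = 1) (hLM' : ∀ i, Int.gcd (L' i) (M * c : ℕ) = 1)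
    (hR : ∀ i, Int.gcd (R i) M = 1) (hR' : ∀ i, Int.gcd (R' i) (M * c' : ℕ) = 1)
    (hX : ∃ᶠ x : ℕ in atTop,
      (∀ i j, (cnt (L' j - c * L i) c x : ℝ) < (x : ℝ) / (Real.log x) ^ (4 * K + 3)) ∧
      (∀ i j, (cnt (R' j - c' * R i) c' x : ℝ) < (x : ℝ) / (Real.log x) ^ (4 * K + 3))) :
    ∃ C : ℕ, ∀ e : ℕ, 1 ≤ e → ∀ A : ℤ,
      (∃ a ∈ Ioc A (A + ((C * e : ℕ) : ℤ)), Oft (4 * K + 3) a e ∨ Oft (4 * K + 3) a (c * e : ℕ)) ∨
      (∃ a ∈ Ioc (c' * A) (c' * A + ((C * e : ℕ) : ℤ)),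
        Oft (4 * K + 3) a (c' * e : ℕ) ∨ Oft (4 * K + 3) a (c * c' * e : ℕ)) := by
  have h2M : 2 ∣ M := hMp 2 Nat.prime_two (by omega)
  -- a bound for the constant terms
  obtain ⟨W, hW1, hW⟩ : ∃ W : ℕ, 1 ≤ W ∧ ∀ i, |L i| ≤ W ∧ |L' i| ≤ W ∧ |R i| ≤ W ∧ |R' i| ≤ W := by
    obtain ⟨V, hV⟩ : ∃ V : ℕ, V = ∑ i, ((L i).natAbs + (L' i).natAbs + (R i).natAbs + (R' i).natAbs) := ⟨_, rfl⟩
    refine ⟨1 + V, by omega, fun i => ?_⟩
    have h1 := Finset.single_le_sum (f := fun i => ((L i).natAbs + (L' i).natAbs + (R i).natAbs + (R' i).natAbs))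
      (fun _ _ => Nat.zero_le _) (mem_univ i)
    rw [← hV] at h1
    simp only [Int.abs_eq_natAbs, Nat.cast_le]
    omega
  refine ⟨c' * (4 * (c * W) + M * (c * c')), fun e he A => ?_⟩
  have htriv := triv hK four
  set A1 : ℤ := A + 2 * (c * e * W) with hA1
  obtain ⟨t, ht, hRt, hRt'⟩ := exists_t M hM hMp c c' e hc hc' he R R' hR hR' A1
  rw [mem_Ioc] at ht
  -- the forms
  set H : Fin 4 → Fin K → ℤ × ℤ := ![fun i => (1, L i), fun i => ((c : ℕ), L' i),
    fun i => ((c * e : ℕ), R i + t), fun i => ((c * e * c' : ℕ), R' i + c' * t)] with hH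
  have hH0 : ∀ i, H 0 i = (1, L i) := fun i => rfl
  have hH1 : ∀ i, H 1 i = (((c : ℕ) : ℤ), L' i) := fun i => rfl
  have hH2 : ∀ i, H 2 i = (((c * e : ℕ) : ℤ), R i + t) := fun i => rfl
  have hH3 : ∀ i, H 3 i = (((c * e * c' : ℕ) : ℤ), R' i + c' * t) := fun i => rfl
  have hc'0 : (0 : ℤ) < c' := by exact_mod_cast hc'
  have hc0 : (0 : ℤ) < c := by exact_mod_cast hc
  have he0 : (0 : ℤ) < e := by exact_mod_cast he
  have hW0 : (0 : ℤ) < W := by exact_mod_cast hW1
  have hcop : ∀ (s : ℕ) (b : ℤ), Int.gcd b (s * M : ℕ) = 1 → IsCoprime (s : ℤ) b := by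
    intro s b h
    rw [Int.isCoprime_iff_gcd_eq_one]
    refine gcd_one fun p hp h1 h3 => gcd_ne h hp h3 ?_
    push_cast
    exact h1.mul_right _
  have hdivide : ∀ (s s' : ℕ) (b : ℤ), s ∣ s' → Int.gcd b (s' * M : ℕ) = 1 → Int.gcd b (s * M : ℕ) = 1 := by
    intro s s' b hd h
    refine gcd_one fun p hp h1 h3 => gcd_ne h hp h1 ?_
    exact h3.trans (by exact_mod_cast Nat.mul_dvd_mul_right hd M)
  have hLM'2 : ∀ i, Int.gcd (L' i) (c * M : ℕ) = 1 := fun i => by rw [mul_comm c M]; exact hLM' i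
  have hLM'1 : ∀ i, Int.gcd (L' i) M = 1 := fun i => by
    have := hdivide 1 c _ (one_dvd _) (hLM'2 i)
    rwa [one_mul] at this
  have hRt2 : ∀ i, Int.gcd (R i + t) (c * e * M : ℕ) = 1 := fun i =>
    hdivide _ _ _ (Dvd.intro _ rfl) (hRt i)
  have hloc : ∀ p : ℕ, p.Prime → p ≤ 4 * K → ∀ g i, ¬ (p : ℤ) ∣ (H g i).2 := by
    intro p hp hle g i hd
    have hpM : (p : ℤ) ∣ M := by exact_mod_cast hMp p hp hle
    fin_cases g
    · exact gcd_ne (hLM i) hp hd hpM
    · exact gcd_ne (hLM'2 i) hp hd (by push_cast; exact hpM.mul_left _)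
    · exact gcd_ne (hRt2 i) hp hd (by push_cast; exact hpM.mul_left _)
    · exact gcd_ne (hRt' i) hp hd (by push_cast; exact hpM.mul_left _)
  have h4 := four H (by
      intro g
      fin_cases g
      · intro i j h; exact hL (congrArg Prod.snd h)
      · intro i j h; exact hL' (congrArg Prod.snd h)
      · intro i j h; exact hRi (add_right_cancel (congrArg Prod.snd h))
      · intro i j h; exact hRi' (add_right_cancel (congrArg Prod.snd h)))
    (by
      intro g i
      fin_cases g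
      · exact ⟨one_pos, isCoprime_one_left⟩
      · exact ⟨hc0, hcop _ _ (hLM'2 i)⟩
      · refine ⟨?_, hcop _ _ (hRt2 i)⟩
        show (0 : ℤ) < ((c * e : ℕ) : ℤ)
        push_cast; positivity
      · refine ⟨?_, hcop _ _ (hRt' i)⟩
        show (0 : ℤ) < ((c * e * c' : ℕ) : ℤ)
        push_cast; positivity)
    (fun p hp hle => ⟨0, fun g i => by
      rw [mul_zero, zero_add]
      exact hloc p hp hle g i⟩)
  -- the scale
  set w : ℕ := W + t.natAbs with hw
  have hce : 1 ≤ c * e := Nat.mul_pos hc he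
  have h5 := (tendsto_scale (s := c * e) (w := w) hce).eventually h4
  have h6 := scale (C := 4 * K + 2) (s := c * e) (w := w) hce
  have h7 : ∃ᶠ x : ℕ in atTop, ∃ i j,
      (((x : ℝ) / (Real.log x) ^ (4 * K + 3) ≤ (cnt (R j + t - (c * e : ℕ) * L i) (c * e : ℕ) x : ℝ)) ∨
      ((x : ℝ) / (Real.log x) ^ (4 * K + 3) ≤ (cnt (R' j + c' * t - (c * c' * e : ℕ) * L i) (c * c' * e : ℕ) x : ℝ)) ∨
      ((x : ℝ) / (Real.log x) ^ (4 * K + 3) ≤ (cnt (R j + t - (e : ℕ) * L' i) (e : ℕ) x : ℝ)) ∨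
      ((x : ℝ) / (Real.log x) ^ (4 * K + 3) ≤ (cnt (R' j + c' * t - (c' * e : ℕ) * L' i) (c' * e : ℕ) x : ℝ))) := by
    refine (hX.and_eventually ((h5.and h6).and htriv)).mono ?_
    rintro x ⟨⟨hb1, hb2⟩, ⟨⟨g, g', hlt, k, k', h8⟩, h9, h10⟩, h11⟩
    set N : ℕ := (x - w) / (c * e) with hN
    have hNx : (N : ℤ) ≤ ((c * e : ℕ) : ℤ) * N := by
      have : N ≤ c * e * N := Nat.le_mul_of_pos_left _ hce
      exact_mod_cast this
    have hcN : (c : ℤ) * N ≤ ((c * e : ℕ) : ℤ) * N := by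
      have : c * N ≤ c * e * N := Nat.mul_le_mul_right _ (Nat.le_mul_of_pos_right _ he)
      exact_mod_cast this
    have hxle : ((c * e : ℕ) : ℤ) * N + (W + |t|) ≤ x := by
      have h12 : ((c * e * N + w : ℕ) : ℤ) ≤ x := by exact_mod_cast h10
      rw [hw] at h12
      rw [Int.abs_eq_natAbs]
      push_cast at h12 ⊢
      linarith
    -- the general step
    have step : ∀ (s b s' b' Q : ℤ), 0 < s → s' = s * Q → s * N + b ≤ x →
        ((s, b) = (s', b') ∨ (N : ℝ) / (Real.log N) ^ (4 * K + 2) ≤ (cntN {(s, b), (s', b')} N : ℝ)) →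
        (x : ℝ) / (Real.log x) ^ (4 * K + 3) ≤ (cnt (b' - Q * b) Q x : ℝ) := by
      intro s b s' b' Q hs hs' hle h
      rcases h with h | h
      · obtain ⟨e1, e2⟩ := Prod.mk.injEq _ _ _ _ ▸ h
        have hQ : Q = 1 := by
          rw [← e1] at hs'
          have : s * (Q - 1) = 0 := by linarith
          rcases mul_eq_zero.1 this with h | h
          · exact absurd h hs.ne'
          · linarith
        rw [hQ, ← e2, one_mul, sub_self]
        exact h11
      · refine h9.trans (h.trans ?_)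
        exact_mod_cast cnt_ge hs hs' (F := {(s, b), (s', b')}) (by simp) (by simp) hle
    have hLb : ∀ i, (1 : ℤ) * N + L i ≤ x := by
      intro i
      have := (abs_le.1 (hW i).1).2
      have := abs_nonneg t
      linarith
    have hLb' : ∀ i, ((c : ℕ) : ℤ) * N + L' i ≤ x := by
      intro i
      have := (abs_le.1 (hW i).2.1).2
      have := abs_nonneg t
      linarith
    have hRb : ∀ i, ((c * e : ℕ) : ℤ) * N + (R i + t) ≤ x := by
      intro i
      have := (abs_le.1 (hW i).2.2.1).2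
      have := le_abs_self t
      linarith
    have hcases : ∀ g g' : Fin 4, g < g' → (g = 0 ∧ g' = 1) ∨ (g = 0 ∧ g' = 2) ∨ (g = 0 ∧ g' = 3) ∨
        (g = 1 ∧ g' = 2) ∨ (g = 1 ∧ g' = 3) ∨ (g = 2 ∧ g' = 3) := by decide
    rcases hcases g g' hlt with ⟨rfl, rfl⟩ | ⟨rfl, rfl⟩ | ⟨rfl, rfl⟩ | ⟨rfl, rfl⟩ | ⟨rfl, rfl⟩ | ⟨rfl, rfl⟩
    · exfalso
      rw [hH0, hH1] at h8
      have := step 1 (L k) (c : ℕ) (L' k') (c : ℕ) one_pos (by ring) (hLb k) h8
      exact absurd this (not_le.2 (hb1 k k'))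
    · rw [hH0, hH2] at h8
      exact ⟨k, k', Or.inl (step 1 (L k) (c * e : ℕ) (R k' + t) (c * e : ℕ) one_pos (by ring) (hLb k) h8)⟩
    · rw [hH0, hH3] at h8
      exact ⟨k, k', Or.inr (Or.inl (step 1 (L k) (c * e * c' : ℕ) (R' k' + c' * t) (c * c' * e : ℕ) one_pos
        (by push_cast; ring) (hLb k) h8))⟩
    · rw [hH1, hH2] at h8
      exact ⟨k, k', Or.inr (Or.inr (Or.inl (step (c : ℕ) (L' k) (c * e : ℕ) (R k' + t) (e : ℕ) hc0
        (by push_cast; ring) (hLb' k) h8)))⟩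
    · rw [hH1, hH3] at h8
      exact ⟨k, k', Or.inr (Or.inr (Or.inr (step (c : ℕ) (L' k) (c * e * c' : ℕ) (R' k' + c' * t) (c' * e : ℕ) hc0
        (by push_cast; ring) (hLb' k) h8)))⟩
    · exfalso
      rw [hH2, hH3] at h8
      have := step (c * e : ℕ) (R k + t) (c * e * c' : ℕ) (R' k' + c' * t) (c' : ℕ) (by push_cast; positivity)
        (by push_cast; ring) (hRb k) h8
      have h12 : R' k' + c' * t - ((c' : ℕ) : ℤ) * (R k + t) = R' k' - c' * R k := by ring
      rw [h12] at this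
      exact absurd this (not_le.2 (hb2 k k'))
  obtain ⟨i, h8⟩ := freq_exists h7
  obtain ⟨j, h9⟩ := freq_exists h8
  rw [frequently_or_distrib, frequently_or_distrib, frequently_or_distrib] at h9
  -- the windows
  have hceW : (0 : ℤ) ≤ c * e * W := by positivity
  have hWce : (W : ℤ) ≤ c * e * W := by
    have : (1 : ℤ) * W ≤ (c * e) * W := mul_le_mul_of_nonneg_right (by exact_mod_cast hce) hW0.le
    linarith
  have hLi := abs_le.1 (hW i).1
  have hLi' := abs_le.1 (hW i).2.1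
  have hRj := abs_le.1 (hW j).2.2.1
  have hRj' := abs_le.1 (hW j).2.2.2
  have hCe : ((c' * (4 * (c * W) + M * (c * c')) * e : ℕ) : ℤ) =
      c' * (4 * (c * e * W) + M * (c * e * c')) := by push_cast; ring
  have hMc : ((M * (c * e * c') : ℕ) : ℤ) = M * (c * e * c') := by push_cast; ring
  rw [hMc] at ht
  have hP : (0 : ℤ) ≤ 4 * (c * e * W) + M * (c * e * c') := by positivity
  have hP' : 4 * (c * e * W : ℤ) + M * (c * e * c') ≤ c' * (4 * (c * e * W) + M * (c * e * c')) := by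
    have : (1 : ℤ) * (4 * (c * e * W) + M * (c * e * c')) ≤ c' * (4 * (c * e * W) + M * (c * e * c')) :=
      mul_le_mul_of_nonneg_right (by exact_mod_cast hc') hP
    linarith
  -- the products are bounded
  have hb : ∀ (s : ℤ) (l : ℤ), 0 ≤ s → -(W : ℤ) ≤ l → l ≤ W → -(s * W) ≤ s * l ∧ s * l ≤ s * W := by
    intro s l hs h1 h2
    constructor
    · have := mul_le_mul_of_nonneg_left h1 hs
      linarith
    · exact mul_le_mul_of_nonneg_left h2 hs
  rcases h9 with h9 | h9 | h9 | h9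
  · refine Or.inl ⟨_, ?_, Or.inr ⟨adm_of h2M (s := c * e) dvd_rfl (hLM i) (hRt2 j), h9⟩⟩
    obtain ⟨u1, u2⟩ := hb (c * e) (L i) (by positivity) hLi.1 hLi.2
    rw [mem_Ioc, hCe]
    push_cast
    constructor <;> linarith
  · refine Or.inr ⟨_, ?_, Or.inr ⟨adm_of h2M (s := c * e * c') (by
      rw [show c * c' * e = c * e * c' by ring]) (hLM i) (hRt' j), h9⟩⟩
    obtain ⟨u1, u2⟩ := hb (c' * (c * e)) (L i) (by positivity) hLi.1 hLi.2
    have u3 : (W : ℤ) ≤ c' * (c * e * W) := by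
      have : (1 : ℤ) * (c * e * W) ≤ c' * (c * e * W) :=
        mul_le_mul_of_nonneg_right (by exact_mod_cast hc') hceW
      linarith
    have u4 : (c' : ℤ) * (A + 2 * (c * e * W)) < c' * t := mul_lt_mul_of_pos_left ht.1 hc'0
    have u5 : (c' : ℤ) * t ≤ c' * (A + 2 * (c * e * W) + M * (c * e * c')) :=
      mul_le_mul_of_nonneg_left ht.2 hc'0.le
    rw [mem_Ioc, hCe]
    push_cast
    have u6 : (c : ℤ) * c' * e * L i = c' * (c * e) * L i := by ring
    rw [u6]
    constructor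
    · linarith
    · linarith
  · refine Or.inl ⟨_, ?_, Or.inl ⟨adm_of h2M (s := c * e) (by push_cast; exact dvd_mul_left _ _)
      (hLM'1 i) (hRt2 j), h9⟩⟩
    obtain ⟨u1, u2⟩ := hb e (L' i) (by positivity) hLi'.1 hLi'.2
    have u3 : (e : ℤ) * W ≤ c * e * W := by
      have : (1 : ℤ) * (e * W) ≤ c * (e * W) :=
        mul_le_mul_of_nonneg_right (by exact_mod_cast hc) (by positivity)
      linarith
    rw [mem_Ioc, hCe]
    constructor <;> linarith
  · refine Or.inr ⟨_, ?_, Or.inl ⟨adm_of h2M (s := c * e * c') (by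
      push_cast
      exact ⟨c, by ring⟩) (hLM'1 i) (hRt' j), h9⟩⟩
    obtain ⟨u1, u2⟩ := hb (c' * e) (L' i) (by positivity) hLi'.1 hLi'.2
    have u3 : (W : ℤ) ≤ c' * (c * e * W) := by
      have : (1 : ℤ) * (c * e * W) ≤ c' * (c * e * W) :=
        mul_le_mul_of_nonneg_right (by exact_mod_cast hc') hceW
      linarith
    have u7 : (c' : ℤ) * e * W ≤ c' * (c * e * W) := by
      have : (1 : ℤ) * (c' * (e * W)) ≤ c * (c' * (e * W)) :=
        mul_le_mul_of_nonneg_right (by exact_mod_cast hc) (by positivity)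
      linarith
    have u4 : (c' : ℤ) * (A + 2 * (c * e * W)) < c' * t := mul_lt_mul_of_pos_left ht.1 hc'0
    have u5 : (c' : ℤ) * t ≤ c' * (A + 2 * (c * e * W) + M * (c * e * c')) :=
      mul_le_mul_of_nonneg_left ht.2 hc'0.le
    rw [mem_Ioc, hCe]
    push_cast
    constructor
    · linarith
    · linarith

end Pool.Agent.N679.PD
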